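import Mathlib
import Pool.Agent.H84.KnotDefs
import Pool.Agent.H84.Fig8Final

/-!
The cores of the Dehn fillings of the figure-eight knot exterior of slope `p/q`, `p` odd,
`q ≠ 0`, are hyperbolic knots in `ℤ/2`-homology spheres with real torsion polynomial which are
not amphichiral.
-/

open Matrix LaurentPolynomial

namespace Pool.Agent.Results.MP_d7bd94_gt.FigureEightFillings

open Pool.Agent.H84

/-- For coprime `p`, `q` with `p` odd and `q ≠ 0` there is a hyperbolic knot in a
`ℤ/2`-homology sphere (the core of the `p/q` filling of the figure-eight exterior), with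
explicit distinguished representation `α` and meridian `μ`, whose torsion polynomial has real
coefficients but which is not amphichiral. -/
theorem result (p q : ℤ) (hp : Odd p) (hq : q ≠ 0) (hpq : IsCoprime p q) :
    ∃ (π : Type) (_ : Group π) (α : π → Matrix (Fin 2) (Fin 2) ℂ) (a b μ : π),
      Subgroup.closure {a, b} = ⊤ ∧
      α a = (-1 : ℂ) ^ q • !![1, 1; 0, 1] ∧
      α b = (-1 : ℂ) ^ q • !![1, 0; (1 - (Real.sqrt 3 : ℂ) * Complex.I) / 2, 1] ∧
      α μ = !![1, (p : ℂ) + 2 * (q : ℂ) * (Real.sqrt 3 : ℂ) * Complex.I; 0, 1] ∧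
      IsHyperbolicKnot α μ ∧ IsModTwoHomologySphere μ ∧ FirstHomologyIsCyclic μ p.natAbs ∧
      (∃ P : ℂ[T;T⁻¹], IsTorsionPolynomial α P ∧ ∀ n, (P.coeff n).im = 0) ∧
      ¬ IsAmphichiral α μ ∧ (3 ≤ |p| → ¬ HasOrientationReversingAutomorphism μ) :=
  figureEight_main p q hp hq hpq

end Pool.Agent.Results.MP_d7bd94_gt.FigureEightFillings
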